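import Mathlib

/-!
# Every odd `n ≥ 3` has a prime divisor which satisfies the criterion
-/

set_option autoImplicit false

open Finset

namespace Pool.Agent.H36.EN

/-- the least exponent `J` for which the component `p^a` can be bad -/
def ee (p a : ℕ) : ℕ :=
  ((p ^ a - 1) * (p - 2) + 2 * a * (p - 1) + 2 + (2 * (p - 1) - 1)) / (2 * (p - 1))

def am (B p : ℕ) : ℕ → ℕ → ℕ
  | 0, a => a
  | f + 1, a => if p ^ ee p (a + 1) < B then am B p f (a + 1) else a

/-- trial division by small primes -/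
def tst (p : ℕ) : Bool :=
  ([3, 5, 7, 11, 13, 17, 19] : List ℕ).all fun d => p % d != 0 || p == d

def UU (B : ℕ) : ℕ → ℕ
  | 0 => 1
  | k + 1 => (if tst (2 * k + 3) then (2 * k + 3) ^ am B (2 * k + 3) 8 0 else 1) * UU B k

private lemma ee_le {p a J : ℕ} (hp : 2 ≤ p)
    (h : (p ^ a - 1) * (p - 2) + 2 * a * (p - 1) + 2 ≤ 2 * (p - 1) * J) : ee p a ≤ J := by
  unfold ee
  have h1 : 0 < 2 * (p - 1) := by omega
  refine Nat.le_of_lt_succ ((Nat.div_lt_iff_lt_mul h1).2 ?_)
  have h2 : J.succ * (2 * (p - 1)) = 2 * (p - 1) * J + 2 * (p - 1) := by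
    rw [Nat.succ_eq_add_one]
    ring
  rw [h2]
  omega

private lemma ee_ge {p a : ℕ} (hp : 2 ≤ p) :
    (p ^ a - 1) * (p - 2) + 2 * a * (p - 1) + 2 ≤ 2 * (p - 1) * ee p a := by
  unfold ee
  have h1 : 0 < 2 * (p - 1) := by omega
  have h2 := Nat.div_add_mod ((p ^ a - 1) * (p - 2) + 2 * a * (p - 1) + 2 + (2 * (p - 1) - 1))
    (2 * (p - 1))
  have h3 := Nat.mod_lt ((p ^ a - 1) * (p - 2) + 2 * a * (p - 1) + 2 + (2 * (p - 1) - 1)) h1
  omega

private lemma ee_mono {p a b : ℕ} (hp : 2 ≤ p) (hab : a ≤ b) : ee p a ≤ ee p b := by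
  unfold ee
  refine Nat.div_le_div_right ?_
  have h1 : p ^ a ≤ p ^ b := Nat.pow_le_pow_right (by omega) hab
  have h2 : (p ^ a - 1) * (p - 2) ≤ (p ^ b - 1) * (p - 2) := Nat.mul_le_mul_right _ (by omega)
  have h3 : 2 * a * (p - 1) ≤ 2 * b * (p - 1) := Nat.mul_le_mul_right _ (by omega)
  omega

private lemma ee_four {p a : ℕ} (hp : 3 ≤ p) (ha : 1 ≤ a) : p ^ a + 3 ≤ 4 * ee p a := by
  have h1 := ee_ge (p := p) (a := a) (by omega)
  obtain ⟨r, rfl⟩ : ∃ r, p = r + 2 := ⟨p - 2, by omega⟩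
  have hq : 1 ≤ (r + 2) ^ a := Nat.one_le_pow _ _ (by omega)
  obtain ⟨u, hu⟩ : ∃ u, (r + 2) ^ a = u + 1 := ⟨(r + 2) ^ a - 1, by omega⟩
  rw [hu] at h1 ⊢
  simp only [Nat.add_sub_cancel, show r + 2 - 1 = r + 1 by omega] at h1
  by_contra hcon
  push Not at hcon
  have h2 : (r + 1) * (4 * ee (r + 2) a) ≤ (r + 1) * (u + 3) := Nat.mul_le_mul_left _ (by omega)
  nlinarith [Nat.mul_le_mul_left u (show 1 ≤ r by omega), Nat.mul_le_mul_left (r + 1) ha]

private lemma ee_two {p a : ℕ} (hp : 3 ≤ p) (ha : 1 ≤ a) : p ≤ 2 * ee p a := by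
  have h1 := ee_ge (p := p) (a := a) (by omega)
  obtain ⟨r, rfl⟩ : ∃ r, p = r + 2 := ⟨p - 2, by omega⟩
  have hq : r + 2 ≤ (r + 2) ^ a := Nat.le_self_pow (by omega) _
  obtain ⟨u, hu⟩ : ∃ u, (r + 2) ^ a = u + 1 := ⟨(r + 2) ^ a - 1, by omega⟩
  rw [hu] at h1 hq
  simp only [Nat.add_sub_cancel, show r + 2 - 1 = r + 1 by omega] at h1
  by_contra hcon
  push Not at hcon
  have h2 : (r + 1) * (2 * ee (r + 2) a) ≤ (r + 1) * (r + 1) := Nat.mul_le_mul_left _ (by omega)
  nlinarith [Nat.mul_le_mul_right r (show r + 1 ≤ u by omega), Nat.mul_le_mul_left (r + 1) ha]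

private lemma am_self (B p f : ℕ) : ∀ a, a ≤ am B p f a := by
  induction f with
  | zero => intro a; exact le_rfl
  | succ f ih =>
    intro a
    unfold am
    split_ifs
    · exact (Nat.le_succ a).trans (ih _)
    · exact le_rfl

private lemma am_ge {B p : ℕ} (hp : 2 ≤ p) {a : ℕ} (h : p ^ ee p a < B) (f : ℕ) :
    ∀ a0, a0 ≤ a → a ≤ a0 + f → a ≤ am B p f a0 := by
  induction f with
  | zero => intro a0 _ h2; exact h2
  | succ f ih =>
    intro a0 h1 h2
    unfold am
    split_ifs with hc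
    · rcases Nat.eq_or_lt_of_le h1 with h3 | h3
      · rw [← h3]
        exact (Nat.le_succ _).trans (am_self B p f _)
      · exact ih _ h3 (by omega)
    · by_contra hcon
      push Not at hcon
      exact hc (lt_of_le_of_lt (Nat.pow_le_pow_right (by omega) (ee_mono hp hcon)) h)

private lemma UU_eq (B K : ℕ) : UU B K = ∏ k ∈ range K,
    (if tst (2 * k + 3) then (2 * k + 3) ^ am B (2 * k + 3) 8 0 else 1) := by
  induction K with
  | zero => rfl
  | succ K ih => rw [prod_range_succ, ← ih, UU, mul_comm]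

private lemma tst_prime {p : ℕ} (hp : p.Prime) : tst p = true := by
  unfold tst
  rw [List.all_eq_true]
  intro d hd
  have hd1 : d ≠ 1 := by
    rintro rfl
    simp at hd
  by_cases h : p % d = 0
  · have h1 := (Nat.dvd_prime hp).1 (Nat.dvd_of_mod_eq_zero h)
    rcases h1 with h1 | h1
    · exact absurd h1 hd1
    · simp [h1]
  · simp [h]

/-- all prime divisors are bad at the level `B` -/
def Bad (n B : ℕ) : Prop := ∀ p, p.Prime → p ∣ n → p ^ ee p (n.factorization p) < B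

private lemma n_eq {n : ℕ} (hn : n ≠ 0) : n = ∏ p ∈ n.primeFactors, p ^ n.factorization p := by
  conv_lhs => rw [← Nat.prod_factorization_pow_eq_self hn]
  rfl

private lemma three_le {n p : ℕ} (ho : Odd n) (hp : p.Prime) (hpn : p ∣ n) : 3 ≤ p := by
  have h2 := hp.two_le
  rcases Nat.eq_or_lt_of_le h2 with h | h
  · exfalso
    rw [← h] at hpn
    obtain ⟨k, hk⟩ := ho
    omega
  · exact h

private lemma odd_p {n p : ℕ} (ho : Odd n) (hpn : p ∣ n) : Odd p := Odd.of_dvd_nat ho hpn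

lemma bad_le {n B : ℕ} (ho : Odd n) (hB : B ≤ 2 ^ 1400) (hb : Bad n B) : n ≤ UU B 200 := by
  have hn0 : n ≠ 0 := by
    rintro rfl
    exact absurd ho (by decide)
  have key : ∀ p ∈ n.primeFactors, p ^ n.factorization p ≤ p ^ am B p 8 0 ∧ p < 403 := by
    intro p hp
    rw [Nat.mem_primeFactors] at hp
    obtain ⟨hp, hpn, _⟩ := hp
    have h3 := three_le ho hp hpn
    have ha : 1 ≤ n.factorization p := (hp.dvd_iff_one_le_factorization hn0).1 hpn
    have hlt := hb p hp hpn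
    constructor
    · refine Nat.pow_le_pow_right hp.pos (am_ge (by omega) hlt 8 0 (Nat.zero_le _) ?_)
      by_contra hcon
      push Not at hcon
      have h4 := ee_mono (p := p) (by omega) (show 9 ≤ n.factorization p by omega)
      have h5 := ee_four h3 (show 1 ≤ 9 by norm_num)
      have h6 : 3 ^ 9 ≤ p ^ 9 := Nat.pow_le_pow_left h3 9
      have h7 : 1400 ≤ ee p (n.factorization p) := by
        norm_num at h6
        omega
      have h8 : 2 ^ 1400 ≤ p ^ ee p (n.factorization p) :=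
        (Nat.pow_le_pow_left (by omega : 2 ≤ p) _).trans (Nat.pow_le_pow_right hp.pos h7)
      omega
    · by_contra hcon
      push Not at hcon
      have h4 := ee_two h3 ha
      have h5 : 256 ^ 200 ≤ p ^ ee p (n.factorization p) :=
        (Nat.pow_le_pow_left (by omega : 256 ≤ p) _).trans
          (Nat.pow_le_pow_right hp.pos (by omega))
      have h6 : (2 : ℕ) ^ 1400 ≤ 256 ^ 200 := by
        rw [show (256 : ℕ) = 2 ^ 8 by norm_num, ← pow_mul]
        exact Nat.pow_le_pow_right (by norm_num) (by norm_num)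
      omega
  have h1 : n ≤ ∏ p ∈ n.primeFactors, p ^ am B p 8 0 := by
    conv_lhs => rw [n_eq hn0]
    exact prod_le_prod' fun p hp => (key p hp).1
  refine h1.trans ?_
  rw [UU_eq]
  have h2 : ∏ k ∈ range 200, (if tst (2 * k + 3) then (2 * k + 3) ^ am B (2 * k + 3) 8 0 else 1) =
      ∏ p ∈ (range 200).image (fun k => 2 * k + 3), (if tst p then p ^ am B p 8 0 else 1) := by
    rw [prod_image]
    intro x _ y _ hxy
    simp only at hxy
    omega
  rw [h2]
  have h3 : ∏ p ∈ n.primeFactors, p ^ am B p 8 0 =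
      ∏ p ∈ n.primeFactors, (if tst p then p ^ am B p 8 0 else 1) := by
    refine prod_congr rfl fun p hp => ?_
    rw [if_pos (tst_prime (Nat.prime_of_mem_primeFactors hp))]
  rw [h3]
  refine prod_le_prod_of_subset_of_one_le' ?_ ?_
  · intro p hp
    have h4 := (key p hp).2
    have hp' := hp
    rw [Nat.mem_primeFactors] at hp'
    have h5 := three_le ho hp'.1 hp'.2.1
    obtain ⟨r, hr⟩ := odd_p ho hp'.2.1
    rw [mem_image]
    exact ⟨r - 1, mem_range.2 (by omega), by omega⟩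
  · intro p hp _
    rw [mem_image] at hp
    obtain ⟨k, _, rfl⟩ := hp
    split_ifs
    · exact Nat.one_le_pow _ _ (by omega)
    · exact le_rfl

private lemma pow10 {S : ℕ} (hS : 59 ≤ S) : S ^ 10 ≤ 2 ^ S := by
  induction S, hS using Nat.le_induction with
  | base => norm_num
  | succ S hS ih =>
    have h1 : ((S + 1) * 59) ^ 10 ≤ (60 * S) ^ 10 := Nat.pow_le_pow_left (by omega) _
    rw [mul_pow, mul_pow] at h1
    have h2 : (60 : ℕ) ^ 10 ≤ 2 * 59 ^ 10 := by norm_num
    have h3 : (S + 1) ^ 10 * 59 ^ 10 ≤ 2 * S ^ 10 * 59 ^ 10 := by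
      calc (S + 1) ^ 10 * 59 ^ 10 ≤ 60 ^ 10 * S ^ 10 := h1
        _ ≤ 2 * 59 ^ 10 * S ^ 10 := Nat.mul_le_mul_right _ h2
        _ = 2 * S ^ 10 * 59 ^ 10 := by ring
    have h4 := Nat.le_of_mul_le_mul_right h3 (by positivity)
    rw [pow_succ 2 S]
    omega

lemma tail {n t : ℕ} (ho : Odd n) (ht : 1400 ≤ t) (hnt : 2 ^ t ≤ 2 * n)
    (hb : Bad n (2 ^ (t + 1))) : False := by
  have hn0 : n ≠ 0 := by
    rintro rfl
    exact absurd ho (by decide)
  set T := t + 1 with hT
  set M := T / 3 with hM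
  set Q := 8 * T / 3 with hQ
  set s := Nat.sqrt Q with hs
  have hsQ : s * s ≤ Q := Nat.sqrt_le Q
  have hQs : Q < (s + 1) * (s + 1) := Nat.lt_succ_sqrt Q
  have hQ1 : 1 ≤ Q := by omega
  have key : ∀ p ∈ n.primeFactors, p ≤ M ∧ 3 ≤ p ∧ Odd p ∧
      p ^ n.factorization p ≤ p * (if p ≤ s then Q else 1) := by
    intro p hp
    rw [Nat.mem_primeFactors] at hp
    obtain ⟨hp, hpn, _⟩ := hp
    have h3 := three_le ho hp hpn
    have ha : 1 ≤ n.factorization p := (hp.dvd_iff_one_le_factorization hn0).1 hpn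
    have hlt := hb p hp hpn
    set e := ee p (n.factorization p) with he
    have h4 := ee_four h3 ha
    have h2 := ee_two h3 ha
    rw [← he] at h4 h2
    have h5 : 3 * e < 2 * T := by
      have h6 : (2 : ℕ) ^ (3 * e) < 2 ^ (2 * T) := by
        calc (2 : ℕ) ^ (3 * e) = 8 ^ e := by rw [pow_mul]; norm_num
          _ ≤ 9 ^ e := Nat.pow_le_pow_left (by norm_num) _
          _ = (3 ^ e) ^ 2 := by rw [← pow_mul, mul_comm e 2, pow_mul]; norm_num
          _ < (2 ^ T) ^ 2 := Nat.pow_lt_pow_left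
              (lt_of_le_of_lt (Nat.pow_le_pow_left h3 _) hlt) (by norm_num)
          _ = 2 ^ (2 * T) := by rw [← pow_mul, mul_comm T 2]
      exact (Nat.pow_lt_pow_iff_right (by norm_num)).1 h6
    have hq : p ^ n.factorization p ≤ Q := by omega
    refine ⟨?_, h3, odd_p ho hpn, ?_⟩
    · by_cases h64 : 64 ≤ p
      · have h6 : (2 : ℕ) ^ (6 * e) < 2 ^ T := by
          calc (2 : ℕ) ^ (6 * e) = 64 ^ e := by rw [pow_mul]; norm_num
            _ ≤ p ^ e := Nat.pow_le_pow_left h64 _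
            _ < 2 ^ T := hlt
        have h7 := (Nat.pow_lt_pow_iff_right (by norm_num)).1 h6
        omega
      · omega
    · split_ifs with hps
      · exact hq.trans (Nat.le_mul_of_pos_left _ hp.pos)
      · have ha1 : n.factorization p = 1 := by
          by_contra hcon
          apply hps
          rw [hs, Nat.le_sqrt]
          refine le_trans ?_ hq
          rw [← sq]
          exact Nat.pow_le_pow_right hp.pos (by omega)
        rw [ha1, pow_one, mul_one]
  have hprod : n ≤ (∏ p ∈ n.primeFactors, p) * ∏ p ∈ n.primeFactors, (if p ≤ s then Q else 1) := by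
    rw [← prod_mul_distrib]
    conv_lhs => rw [n_eq hn0]
    exact prod_le_prod' fun p hp => (key p hp).2.2.2
  have hrad : ∏ p ∈ n.primeFactors, p ≤ 4 ^ M := by
    refine le_trans ?_ (primorial_le_four_pow M)
    unfold primorial
    refine prod_le_prod_of_subset_of_one_le' ?_ ?_
    · intro p hp
      rw [mem_filter, mem_range]
      exact ⟨by have := (key p hp).1; omega, Nat.prime_of_mem_primeFactors hp⟩
    · intro p hp _
      rw [mem_filter] at hp
      exact hp.2.pos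
  set c := (n.primeFactors.filter fun p => p ≤ s).card with hc
  have hW : ∏ p ∈ n.primeFactors, (if p ≤ s then Q else 1) = Q ^ c := by
    rw [prod_ite, prod_const, prod_const_one, mul_one]
  have hcs : 2 * c ≤ s + 2 := by
    have h1 : c ≤ ((range (s / 2 + 1)).image fun i => 2 * i + 1).card := by
      refine card_le_card fun p hp => ?_
      rw [mem_filter] at hp
      obtain ⟨r, hr⟩ := (key p hp.1).2.2.1
      rw [mem_image]
      exact ⟨r, mem_range.2 (by omega), hr.symm⟩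
    have h2 := h1.trans card_image_le
    rw [card_range] at h2
    omega
  have hWle : Q ^ c ≤ (s + 1) ^ (s + 2) := by
    have h1 : (Q ^ c) ^ 2 ≤ ((s + 1) ^ (s + 2)) ^ 2 := by
      calc (Q ^ c) ^ 2 = Q ^ (2 * c) := by rw [← pow_mul, mul_comm]
        _ ≤ Q ^ (s + 2) := Nat.pow_le_pow_right hQ1 hcs
        _ ≤ ((s + 1) * (s + 1)) ^ (s + 2) := Nat.pow_le_pow_left hQs.le _
        _ = ((s + 1) ^ (s + 2)) ^ 2 := by rw [← sq, ← pow_mul, ← pow_mul, mul_comm 2]
    exact (Nat.pow_le_pow_iff_left (by norm_num)).1 h1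
  have hn1 : n ≤ 4 ^ M * (s + 1) ^ (s + 2) := by
    rw [hW] at hprod
    exact hprod.trans (Nat.mul_le_mul hrad hWle)
  have hs59 : 61 ≤ s := by
    rw [hs, Nat.le_sqrt]
    omega
  have h10 : n ^ 10 ≤ 2 ^ (20 * M + (s + 1) * (s + 2)) := by
    calc n ^ 10 ≤ (4 ^ M * (s + 1) ^ (s + 2)) ^ 10 := Nat.pow_le_pow_left hn1 _
      _ = 2 ^ (20 * M) * ((s + 1) ^ 10) ^ (s + 2) := by
          rw [mul_pow, show (4 : ℕ) = 2 ^ 2 by norm_num, ← pow_mul, ← pow_mul, ← pow_mul, ← pow_mul]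
          congr 2 <;> ring
      _ ≤ 2 ^ (20 * M) * (2 ^ (s + 1)) ^ (s + 2) :=
          Nat.mul_le_mul_left _ (Nat.pow_le_pow_left (pow10 (by omega)) _)
      _ = 2 ^ (20 * M + (s + 1) * (s + 2)) := by rw [← pow_mul, ← pow_add]
  have hn2 : 2 ^ (t - 1) ≤ n := by
    have h1 : 2 ^ t = 2 * 2 ^ (t - 1) := by
      rw [← pow_succ']
      congr 1
      omega
    omega
  have h11 : (2 : ℕ) ^ ((t - 1) * 10) ≤ 2 ^ (20 * M + (s + 1) * (s + 2)) := by
    rw [pow_mul]
    exact (Nat.pow_le_pow_left hn2 _).trans h10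
  have h12 := (Nat.pow_le_pow_iff_right (by norm_num)).1 h11
  have h13 : 3 * (s * s) ≤ 8 * T := by omega
  have h14 : 3 * M ≤ T := by omega
  have h15 : 9 * s + 66 < 2 * T := by
    by_contra hcon
    push Not at hcon
    nlinarith
  have h16 : 3 * ((t - 1) * 10) ≤ 3 * (20 * M + (s + 1) * (s + 2)) := Nat.mul_le_mul_left _ h12
  have h17 : 3 * ((s + 1) * (s + 2)) = 3 * (s * s) + 9 * s + 6 := by ring
  omega

private lemma stp {n t : ℕ} (ho : Odd n) (hb : Bad n (2 ^ (t + 1))) (hnt : 2 ^ t < 2 * n)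
    (t1 t2 : ℕ) (h1 : t1 + 1 ≤ t) (h2 : t < t2) (ht2 : t2 ≤ 1400)
    (hc : UU (2 ^ t2) 200 ≤ 2 ^ t1) : False := by
  have h3 : n ≤ UU (2 ^ t2) 200 :=
    bad_le ho (Nat.pow_le_pow_right (by norm_num) ht2) fun p hp hpn =>
      (hb p hp hpn).trans_le (Nat.pow_le_pow_right (by norm_num) h2)
  have h4 : 2 * 2 ^ t1 ≤ 2 ^ t := by
    rw [← pow_succ']
    exact Nat.pow_le_pow_right (by norm_num) h1
  omega

theorem exists_good {n : ℕ} (hn : Odd n) (h3 : 3 ≤ n) : ∃ p, p.Prime ∧ p ∣ n ∧ ∀ J : ℕ,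
    p ^ J ≤ 2 * n - 3 → 2 * (p - 1) * J <
      (p ^ n.factorization p - 1) * (p - 2) + 2 * n.factorization p * (p - 1) + 2 := by
  by_contra hcon
  push Not at hcon
  obtain ⟨t, ht⟩ : ∃ t, t = Nat.log 2 (2 * n - 3) := ⟨_, rfl⟩
  have ht1 : 2 ^ t ≤ 2 * n - 3 := by
    rw [ht]
    exact Nat.pow_log_le_self 2 (by omega)
  have ht2 : 2 * n - 3 < 2 ^ (t + 1) := by
    rw [ht]
    exact Nat.lt_pow_succ_log_self (by norm_num) _
  have hb : Bad n (2 ^ (t + 1)) := by
    intro p hp hpn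
    obtain ⟨J, hJ1, hJ2⟩ := hcon p hp hpn
    exact lt_of_le_of_lt ((Nat.pow_le_pow_right hp.pos (ee_le hp.two_le hJ2)).trans hJ1) ht2
  have hnt : 2 ^ t < 2 * n := by omega
  have ht0 : 1 ≤ t := by
    by_contra h
    have : t = 0 := by omega
    rw [this] at ht2
    omega
  rcases Nat.lt_or_ge t 3 with h | h
  · exact stp hn hb hnt 0 3 (by omega) h (by norm_num) (by decide +kernel)
  rcases Nat.lt_or_ge t 6 with h' | h'
  · exact stp hn hb hnt 2 6 (by omega) h' (by norm_num) (by decide +kernel)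
  rcases Nat.lt_or_ge t 7 with h | h
  · exact stp hn hb hnt 5 7 (by omega) h (by norm_num) (by decide +kernel)
  rcases Nat.lt_or_ge t 11 with h' | h'
  · exact stp hn hb hnt 6 11 (by omega) h' (by norm_num) (by decide +kernel)
  rcases Nat.lt_or_ge t 20 with h | h
  · exact stp hn hb hnt 10 20 (by omega) h (by norm_num) (by decide +kernel)
  rcases Nat.lt_or_ge t 27 with h' | h'
  · exact stp hn hb hnt 19 27 (by omega) h' (by norm_num) (by decide +kernel)
  rcases Nat.lt_or_ge t 42 with h | h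
  · exact stp hn hb hnt 26 42 (by omega) h (by norm_num) (by decide +kernel)
  rcases Nat.lt_or_ge t 72 with h' | h'
  · exact stp hn hb hnt 41 72 (by omega) h' (by norm_num) (by decide +kernel)
  rcases Nat.lt_or_ge t 133 with h | h
  · exact stp hn hb hnt 71 133 (by omega) h (by norm_num) (by decide +kernel)
  rcases Nat.lt_or_ge t 296 with h' | h'
  · exact stp hn hb hnt 132 296 (by omega) h' (by norm_num) (by decide +kernel)
  rcases Nat.lt_or_ge t 754 with h | h
  · exact stp hn hb hnt 295 754 (by omega) h (by norm_num) (by decide +kernel)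
  rcases Nat.lt_or_ge t 1400 with h' | h'
  · exact stp hn hb hnt 753 1400 (by omega) h' (by norm_num) (by decide +kernel)
  exact tail hn h' hnt.le hb

end Pool.Agent.H36.EN
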