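import Pool.Agent.H36.EN.Padic
import Pool.Agent.H36.EN.Size

/-!
# No rational zeros, and the top self-intersection number
-/

set_option autoImplicit false

open Finset

namespace Pool.Agent.H36.EN

/-- `R_n` has no integer zero for `n ≥ 2`. -/
theorem RR_ne {n : ℕ} (hn : 2 ≤ n) (X : ℤ) : RR X n ≠ 0 := by
  rcases Nat.even_or_odd n with h | h
  · exact RR_even_ne h X
  · have h3 : 3 ≤ n := by
      obtain ⟨k, hk⟩ := h
      omega
    obtain ⟨p, hp, hpn, hg⟩ := exists_good h h3
    refine RR_ne_of_good hp ?_ hpn h3 hg X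
    rintro rfl
    obtain ⟨k, hk⟩ := h
    omega

/-- the polynomial with the values `R_n` -/
noncomputable def PP (n : ℕ) : Polynomial ℤ :=
  ∑ k ∈ range (n + 1), Polynomial.C ((n.choose k : ℤ) * cc k) * Polynomial.X ^ (n - k)

lemma PP_monic (n : ℕ) : (PP n).Monic := by
  unfold PP
  rw [sum_range_succ']
  simp only [Nat.choose_zero_right, Nat.cast_one, cc, mul_one, map_one, one_mul, Nat.sub_zero]
  rw [add_comm]
  refine Polynomial.monic_X_pow_add ?_
  rcases Nat.eq_zero_or_pos n with rfl | hn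
  · simp
  · refine lt_of_le_of_lt (Polynomial.degree_sum_le _ _) ?_
    rw [Finset.sup_lt_iff (by exact WithBot.bot_lt_coe n)]
    intro k hk
    rw [mem_range] at hk
    refine lt_of_le_of_lt (Polynomial.degree_C_mul_X_pow_le _ _) ?_
    exact_mod_cast (by omega : n - (k + 1) < n)

/-- `R_n` at a rational number -/
lemma sum_ne {n : ℕ} (hn : 2 ≤ n) (x : ℚ) :
    ∑ k ∈ range (n + 1), (n.choose k : ℚ) * (cc k : ℚ) * x ^ (n - k) ≠ 0 := by
  intro h
  have h1 : Polynomial.aeval x (PP n) = 0 := by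
    unfold PP
    rw [map_sum, ← h]
    refine sum_congr rfl fun k _ => ?_
    simp
  obtain ⟨X, hX⟩ := isInteger_of_is_root_of_monic (PP_monic n) h1
  have hX' : (X : ℚ) = x := by simpa using hX
  refine RR_ne hn X ?_
  have h2 : ((RR X n : ℤ) : ℚ) = 0 := by
    rw [← h, ← hX']
    unfold RR BT
    push_cast
    rfl
  exact_mod_cast h2

lemma cc_cast (k : ℕ) : (cc k : ℚ) = ∏ j ∈ range k, (1 - 2 * (j : ℚ)) := by
  rw [cc_eq_prod]
  push_cast
  rfl

end Pool.Agent.H36.EN
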