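import Pool.Agent.H36.EN.Poly

/-!
# The criterion for odd `n`

If `p | n`, `q = p^a` is the exact power of `p` in `n`, and `p^J ≤ 2n-3` implies
`2(p-1)J < (q-1)(p-2) + 2a(p-1) + 2`, then `R_n` has no integer zero.
-/

set_option autoImplicit false

open Finset

namespace Pool.Agent.H36.EN

private lemma odd_ne (j : ℕ) : (1 - 2 * (j : ℤ)) ≠ 0 := by omega

lemma cc_eq_prod (n : ℕ) : cc n = ∏ j ∈ range n, (1 - 2 * (j : ℤ)) := by
  induction n with
  | zero => rfl
  | succ n ih => rw [prod_range_succ, ← ih, cc, mul_comm]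

lemma cc_ne (n : ℕ) : cc n ≠ 0 := by
  rw [cc_eq_prod]
  exact prod_ne_zero_iff.2 fun j _ => odd_ne j

lemma cc_split {m n : ℕ} (_h : m ≤ n) :
    cc n = cc (n - m) * ∏ j ∈ Ico (n - m) n, (1 - 2 * (j : ℤ)) := by
  rw [cc_eq_prod, cc_eq_prod, prod_range_mul_prod_Ico _ (Nat.sub_le _ _)]

lemma val_finprod {p : ℕ} [Fact p.Prime] (s : Finset ℕ) :
    padicValInt p (∏ j ∈ s, (1 - 2 * (j : ℤ))) = ∑ j ∈ s, padicValInt p (1 - 2 * (j : ℤ)) := by
  classical
  induction s using Finset.induction_on with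
  | empty => simp
  | insert a s ha ih =>
    rw [prod_insert ha, sum_insert ha, padicValInt.mul (odd_ne a)
      (prod_ne_zero_iff.2 fun j _ => odd_ne j), ih]

private lemma prod_low (b N : ℕ) : ∏ i ∈ Ico b (b + N), (b + N - i) = N.factorial := by
  rw [prod_Ico_eq_prod_range, show b + N - b = N by omega, ← prod_range_add_one_eq_factorial,
    ← prod_range_reflect]
  refine prod_congr rfl fun k hk => ?_
  rw [mem_range] at hk
  omega

private lemma prod_high (b N : ℕ) : ∏ i ∈ Ico (b + 1) (b + 1 + N), (i - b) = N.factorial := by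
  rw [prod_Ico_eq_prod_range, show b + 1 + N - (b + 1) = N by omega,
    ← prod_range_add_one_eq_factorial]
  refine prod_congr rfl fun k _ => ?_
  omega

lemma val_prod {p : ℕ} [hp : Fact p.Prime] (hp2 : p ≠ 2) (b : ℕ) {m : ℕ} (hm : 1 ≤ m) :
    ∃ j ∈ Ico b (b + m), padicValInt p (∏ i ∈ Ico b (b + m), (1 - 2 * (i : ℤ))) ≤
      padicValInt p (1 - 2 * (j : ℤ)) + padicValNat p (m - 1).factorial := by
  classical
  obtain ⟨j, hj, hmax⟩ := exists_max_image (Ico b (b + m))
    (fun i => padicValInt p (1 - 2 * (i : ℤ))) ⟨b, by rw [mem_Ico]; omega⟩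
  refine ⟨j, hj, ?_⟩
  rw [val_finprod, ← add_sum_erase _ _ hj]
  refine Nat.add_le_add_left ?_ _
  rw [mem_Ico] at hj
  obtain ⟨N, hN⟩ : ∃ N, j = b + N := ⟨j - b, by omega⟩
  obtain ⟨N', hN'⟩ : ∃ N', b + m = j + 1 + N' := ⟨b + m - (j + 1), by omega⟩
  have hunion : (Ico b (b + m)).erase j = Ico b j ∪ Ico (j + 1) (b + m) := by
    ext i
    simp only [mem_erase, mem_Ico, mem_union]
    omega
  have hdisj : Disjoint (Ico b j) (Ico (j + 1) (b + m)) := by
    rw [disjoint_left]
    intro i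
    simp only [mem_Ico]
    omega
  have key : ∀ i ∈ (Ico b (b + m)).erase j, ∀ d : ℕ, ((d : ℤ) = j - i ∨ (d : ℤ) = i - j) →
      p ^ padicValInt p (1 - 2 * (i : ℤ)) ∣ d := by
    intro i hi d hd
    have h1 := padicValInt_dvd (p := p) (1 - 2 * (i : ℤ))
    have h2 : (p : ℤ) ^ padicValInt p (1 - 2 * (i : ℤ)) ∣ 1 - 2 * (j : ℤ) :=
      (pow_dvd_pow _ (hmax i (mem_of_mem_erase hi))).trans (padicValInt_dvd _)
    have h3 : (p : ℤ) ^ padicValInt p (1 - 2 * (i : ℤ)) ∣ 2 * (d : ℤ) := by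
      rcases hd with hd | hd
      · rw [hd]
        have := dvd_sub h1 h2
        rwa [show 1 - 2 * (i : ℤ) - (1 - 2 * (j : ℤ)) = 2 * ((j : ℤ) - i) by ring] at this
      · rw [hd]
        have := dvd_sub h2 h1
        rwa [show 1 - 2 * (j : ℤ) - (1 - 2 * (i : ℤ)) = 2 * ((i : ℤ) - j) by ring] at this
    have h4 : p ^ padicValInt p (1 - 2 * (i : ℤ)) ∣ 2 * d := by exact_mod_cast h3
    refine (Nat.Coprime.pow_left _ ?_).dvd_of_dvd_mul_left h4
    rw [Nat.coprime_primes hp.out Nat.prime_two]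
    exact hp2
  have h5 : p ^ ∑ i ∈ (Ico b (b + m)).erase j, padicValInt p (1 - 2 * (i : ℤ)) ∣
      (m - 1).factorial := by
    rw [← prod_pow_eq_pow_sum]
    have h6 : ∏ i ∈ (Ico b (b + m)).erase j, p ^ padicValInt p (1 - 2 * (i : ℤ)) ∣
        N.factorial * N'.factorial := by
      rw [hunion, prod_union hdisj]
      refine mul_dvd_mul ?_ ?_
      · rw [← prod_low b N, ← hN]
        refine prod_dvd_prod_of_dvd _ _ fun i hi => ?_
        rw [mem_Ico] at hi
        exact key i (by rw [mem_erase, mem_Ico]; omega) _ (Or.inl (by omega))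
      · rw [← prod_high j N', ← hN']
        refine prod_dvd_prod_of_dvd _ _ fun i hi => ?_
        rw [mem_Ico] at hi
        exact key i (by rw [mem_erase, mem_Ico]; omega) _ (Or.inr (by omega))
    refine h6.trans ?_
    have h7 := Nat.factorial_mul_factorial_dvd_factorial (n := m - 1) (k := N) (by omega)
    rwa [show m - 1 - N = N' by omega] at h7
  exact (padicValNat_dvd_iff_le (Nat.factorial_ne_zero _)).1 h5

/-- the hypothesis on the prime divisor `p` of `n` -/
def Good (n p : ℕ) : Prop :=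
  ∀ J : ℕ, p ^ J ≤ 2 * n - 3 → 2 * (p - 1) * J <
    (p ^ n.factorization p - 1) * (p - 2) + 2 * n.factorization p * (p - 1) + 2

lemma key_lt {n p m : ℕ} [hp : Fact p.Prime] (hp2 : p ≠ 2) (hpn : p ∣ n) (hn : 3 ≤ n)
    (hg : Good n p) (hm : 1 ≤ m) (hmn : m ≤ n) :
    padicValInt p (∏ j ∈ Ico (n - m) n, (1 - 2 * (j : ℤ))) < padicValNat p (n.choose m) + m := by
  have hp3 : 3 ≤ p := by
    have := hp.out.two_le
    omega
  obtain ⟨a, ha⟩ : ∃ a, a = n.factorization p := ⟨_, rfl⟩
  have ha1 : 1 ≤ a := by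
    rw [ha]
    exact (hp.out.dvd_iff_one_le_factorization (by omega)).1 hpn
  have hq : p ^ a ∣ n := by
    rw [ha]
    exact Nat.ordProj_dvd n p
  have hqpos : 1 ≤ p ^ a := Nat.one_le_pow _ _ hp.out.pos
  obtain ⟨j, hj, hv⟩ := val_prod (p := p) hp2 (n - m) hm
  rw [show n - m + m = n by omega] at hj hv
  rw [mem_Ico] at hj
  set J := padicValInt p (1 - 2 * (j : ℤ)) with hJdef
  have hJd : (p : ℤ) ^ J ∣ 1 - 2 * (j : ℤ) := padicValInt_dvd _
  -- the choose
  have hC : a ≤ padicValNat p (n.choose m) + padicValNat p m := by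
    rw [← padicValNat.mul (Nat.choose_pos hmn).ne' (by omega),
      ← padicValNat_dvd_iff_le (mul_ne_zero (Nat.choose_pos hmn).ne' (by omega))]
    obtain ⟨n', rfl⟩ : ∃ n', n = n' + 1 := ⟨n - 1, by omega⟩
    obtain ⟨m', rfl⟩ : ∃ m', m = m' + 1 := ⟨m - 1, by omega⟩
    rw [← Nat.add_one_mul_choose_eq]
    exact hq.mul_right _
  -- Legendre
  have hL : (p - 1) * padicValNat p m.factorial < m :=
    sub_one_mul_padicValNat_factorial_lt_of_ne_zero p (n := m) (by omega)
  have hfac : padicValNat p m.factorial = padicValNat p m + padicValNat p (m - 1).factorial := by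
    rw [← Nat.mul_factorial_pred (by omega : m ≠ 0),
      padicValNat.mul (by omega) (Nat.factorial_ne_zero _)]
  -- the main inequality
  have hmain : J + padicValNat p m.factorial < a + m := by
    obtain ⟨r, hr⟩ : ∃ r, p = r + 2 := ⟨p - 2, by omega⟩
    have hr1 : p - 1 = r + 1 := by omega
    have hr2 : p - 2 = r := by omega
    rw [hr1] at hL
    by_cases hcase : p ^ a ≤ 2 * m + 1
    · have hJle : p ^ J ≤ 2 * n - 3 := by
        have h1 : p ^ J ∣ (1 - 2 * (j : ℤ)).natAbs := by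
          rw [← Int.natCast_dvd]
          exact_mod_cast hJd
        have h2 := Nat.le_of_dvd (by have := odd_ne j; omega) h1
        omega
      have h1 := hg J hJle
      rw [← ha, hr1, hr2] at h1
      have h2 : (p ^ a - 1) * r ≤ 2 * m * r := Nat.mul_le_mul_right _ (by omega)
      by_contra hcon
      push Not at hcon
      have h3 : (r + 1) * (a + m) ≤ (r + 1) * (J + padicValNat p m.factorial) :=
        Nat.mul_le_mul_left _ hcon
      nlinarith
    · have hJa : J < a := by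
        by_contra hcon
        push Not at hcon
        have h1 : (p : ℤ) ^ a ∣ 1 - 2 * (j : ℤ) := (pow_dvd_pow _ hcon).trans hJd
        have h2 : (p : ℤ) ^ a ∣ 2 * (n : ℤ) := by
          have : (p : ℤ) ^ a ∣ (n : ℤ) := by exact_mod_cast hq
          exact this.mul_left _
        have h3 := dvd_add h1 h2
        have h4 : (p : ℤ) ^ a ∣ ((2 * (n - j) + 1 : ℕ) : ℤ) := by
          have e : ((2 * (n - j) + 1 : ℕ) : ℤ) = 1 - 2 * (j : ℤ) + 2 * n := by
            omega
          rw [e]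
          exact h3
        have h5 : p ^ a ∣ 2 * (n - j) + 1 := by exact_mod_cast h4
        have h6 := Nat.le_of_dvd (by omega) h5
        omega
      have h3 : padicValNat p m.factorial ≤ m := by
        nlinarith
      omega
  omega

/-- an integer zero of `R_n` is divisible by every prime divisor of `n` -/
lemma dvd_root {n p : ℕ} [hp : Fact p.Prime] (hp2 : p ≠ 2) (hpn : p ∣ n) {X : ℤ}
    (hX : RR X n = 0) : (p : ℤ) ∣ X := by
  have hp3 : 3 ≤ p := by
    have := hp.out.two_le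
    omega
  have hpo : Odd p := hp.out.odd_of_ne_two hp2
  unfold RR BT at hX
  rw [sum_range_succ'] at hX
  simp only [Nat.choose_zero_right, Nat.cast_one, one_mul, cc, Nat.sub_zero] at hX
  have h1 : (p : ℤ) ∣ ∑ k ∈ range n, (n.choose (k + 1) : ℤ) * ((1 - 2 * (k : ℤ)) * cc k) *
      X ^ (n - (k + 1)) := by
    refine dvd_sum fun k hk => ?_
    refine Dvd.dvd.mul_right ?_ _
    rw [mem_range] at hk
    by_cases hpk : p ∣ k + 1
    · refine Dvd.dvd.mul_left ?_ _
      obtain ⟨h, hh⟩ := hpo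
      have h2 : cc (k + 1) = (1 - 2 * (k : ℤ)) * cc k := rfl
      rw [← h2, cc_eq_prod]
      have hk1 : p ≤ k + 1 := Nat.le_of_dvd (by omega) hpk
      refine Dvd.dvd.trans ?_ (dvd_prod_of_mem _ (mem_range.2 (by omega : h + 1 < k + 1)))
      rw [hh]
      exact ⟨-1, by push_cast; ring⟩
    · refine Dvd.dvd.mul_right ?_ _
      obtain ⟨n', rfl⟩ : ∃ n', n = n' + 1 := ⟨n - 1, by omega⟩
      have h3 : p ∣ (n' + 1).choose (k + 1) * (k + 1) := by
        rw [← Nat.add_one_mul_choose_eq]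
        exact hpn.mul_right _
      have h4 := (hp.out.dvd_mul.1 h3).resolve_right hpk
      exact_mod_cast h4
  have h2 : (p : ℤ) ∣ X ^ n := by
    have h3 : X ^ n = - ∑ k ∈ range n, (n.choose (k + 1) : ℤ) * ((1 - 2 * (k : ℤ)) * cc k) *
      X ^ (n - (k + 1)) := by linarith
    rw [h3]
    exact h1.neg_right
  exact (Nat.prime_iff_prime_int.1 hp.out).dvd_of_dvd_pow h2

theorem RR_ne_of_good {n p : ℕ} (hp : p.Prime) (hp2 : p ≠ 2) (hpn : p ∣ n) (hn : 3 ≤ n)
    (hg : Good n p) (X : ℤ) : RR X n ≠ 0 := by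
  have : Fact p.Prime := ⟨hp⟩
  intro hX
  have hpX := dvd_root hp2 hpn hX
  set N := padicValInt p (cc n) with hN
  have h1 : (p : ℤ) ^ (N + 1) ∣ cc n := by
    have h2 : (p : ℤ) ^ (N + 1) ∣ ∑ k ∈ range n, (n.choose k : ℤ) * cc k * X ^ (n - k) := by
      refine dvd_sum fun k hk => ?_
      rw [mem_range] at hk
      obtain ⟨m, hm⟩ : ∃ m, m = n - k := ⟨_, rfl⟩
      have hkm : k = n - m := by omega
      have hm1 : 1 ≤ m := by omega
      have hmn : m ≤ n := by omega
      have h3 := key_lt hp2 hpn hn hg hm1 hmn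
      have h4 := cc_split hmn
      have h5 : N = padicValInt p (cc (n - m)) +
          padicValInt p (∏ j ∈ Ico (n - m) n, (1 - 2 * (j : ℤ))) := by
        rw [hN]
        conv_lhs => rw [h4]
        exact padicValInt.mul (cc_ne _) (prod_ne_zero_iff.2 fun j _ => odd_ne j)
      have h6 : N + 1 ≤ padicValNat p (n.choose m) + padicValInt p (cc (n - m)) + m := by omega
      refine (pow_dvd_pow (p : ℤ) h6).trans ?_
      rw [pow_add, pow_add, ← hm, hkm]
      refine mul_dvd_mul (mul_dvd_mul ?_ (padicValInt_dvd _)) (pow_dvd_pow_of_dvd hpX _)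
      rw [Nat.choose_symm hmn]
      exact_mod_cast pow_padicValNat_dvd
    have h3 : cc n = - ∑ k ∈ range n, (n.choose k : ℤ) * cc k * X ^ (n - k) := by
      unfold RR BT at hX
      rw [sum_range_succ] at hX
      simp only [Nat.choose_self, Nat.cast_one, one_mul, Nat.sub_self, pow_zero, mul_one] at hX
      linarith
    rw [h3]
    exact h2.neg_right
  rw [padicValInt_dvd_iff] at h1
  rcases h1 with h1 | h1
  · exact cc_ne n h1
  · omega

end Pool.Agent.H36.EN
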