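import Mathlib

/-!
# Calabi-Yau manifolds of Enriques type: the polynomials `R_n`

`R_n(X) = Σ_k binom(n,k) c_k X^(n-k)`, `c_k = ∏_{j<k} (1-2j)`, so that `Σ R_n(X) u^n/n! = e^(Xu) (1+2u)^(1/2)`.
Recursion and the case of even `n`.
-/

set_option autoImplicit false

open Finset

namespace Pool.Agent.H36.EN

/-- `c_k = ∏_{j<k} (1-2j)` -/
def cc : ℕ → ℤ
  | 0 => 1
  | k + 1 => (1 - 2 * (k : ℤ)) * cc k

/-- binomial transform -/
def BT (X : ℤ) (f : ℕ → ℤ) (n : ℕ) : ℤ :=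
  ∑ k ∈ range (n + 1), (n.choose k : ℤ) * f k * X ^ (n - k)

/-- `R_n(X)` -/
def RR (X : ℤ) (n : ℕ) : ℤ := BT X cc n

lemma BT_succ (X : ℤ) (f : ℕ → ℤ) (n : ℕ) :
    BT X f (n + 1) = X * BT X f n + BT X (fun k => f (k + 1)) n := by
  unfold BT
  rw [sum_range_succ' _ (n + 1)]
  have h1 : ∀ k ∈ range (n + 1), ((n + 1).choose (k + 1) : ℤ) * f (k + 1) * X ^ (n + 1 - (k + 1)) =
      (n.choose k : ℤ) * f (k + 1) * X ^ (n - k) +
        (n.choose (k + 1) : ℤ) * f (k + 1) * X ^ (n - k) := by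
    intro k _
    rw [Nat.choose_succ_succ, show n + 1 - (k + 1) = n - k by omega]
    push_cast
    ring
  rw [sum_congr rfl h1, sum_add_distrib]
  have h2 : X * ∑ k ∈ range (n + 1), (n.choose k : ℤ) * f k * X ^ (n - k) =
      ∑ k ∈ range (n + 1), (n.choose (k + 1) : ℤ) * f (k + 1) * X ^ (n - k) +
        ((n + 1).choose 0 : ℤ) * f 0 * X ^ (n + 1 - 0) := by
    rw [sum_range_succ' (fun k => (n.choose k : ℤ) * f k * X ^ (n - k)) n,
      sum_range_succ (fun k => (n.choose (k + 1) : ℤ) * f (k + 1) * X ^ (n - k)) n,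
      Nat.choose_succ_self, mul_add, mul_sum]
    have h3 : ∀ k ∈ range n, X * ((n.choose (k + 1) : ℤ) * f (k + 1) * X ^ (n - (k + 1))) =
        (n.choose (k + 1) : ℤ) * f (k + 1) * X ^ (n - k) := by
      intro k hk
      rw [mem_range] at hk
      rw [show n - k = (n - (k + 1)) + 1 by omega, pow_succ]
      ring
    rw [sum_congr rfl h3]
    simp
    ring
  rw [h2]
  ring

lemma BT_mul (X : ℤ) (f : ℕ → ℤ) (n : ℕ) :
    BT X (fun k => (k : ℤ) * f k) (n + 1) = ((n : ℤ) + 1) * BT X (fun k => f (k + 1)) n := by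
  unfold BT
  rw [sum_range_succ' _ (n + 1), mul_sum]
  simp only [Nat.cast_zero, zero_mul, mul_zero, add_zero]
  refine sum_congr rfl fun k _ => ?_
  have h1 : ((n : ℤ) + 1) * (n.choose k : ℤ) = ((n + 1).choose (k + 1) : ℤ) * ((k : ℤ) + 1) := by
    exact_mod_cast Nat.add_one_mul_choose_eq n k
  rw [show n + 1 - (k + 1) = n - k by omega]
  push_cast
  calc ((n + 1).choose (k + 1) : ℤ) * (((k : ℤ) + 1) * f (k + 1)) * X ^ (n - k)
      = (((n + 1).choose (k + 1) : ℤ) * ((k : ℤ) + 1)) * f (k + 1) * X ^ (n - k) := by ring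
    _ = ((n : ℤ) + 1) * ((n.choose k : ℤ) * f (k + 1) * X ^ (n - k)) := by
        rw [← h1]
        ring

lemma BT_sub (X : ℤ) (f g : ℕ → ℤ) (n : ℕ) :
    BT X (fun k => f k - 2 * g k) n = BT X f n - 2 * BT X g n := by
  unfold BT
  rw [mul_sum, ← sum_sub_distrib]
  exact sum_congr rfl fun k _ => by ring

lemma RR_zero (X : ℤ) : RR X 0 = 1 := by
  simp [RR, BT, cc]

lemma RR_one (X : ℤ) : RR X 1 = X + 1 := by
  simp [RR, BT, cc, sum_range_succ]

lemma RR_rec (X : ℤ) (n : ℕ) :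
    RR X (n + 2) = (X + 1 - 2 * ((n : ℤ) + 1)) * RR X (n + 1) + 2 * ((n : ℤ) + 1) * X * RR X n := by
  have h1 := BT_succ X cc (n + 1)
  have h2 := BT_succ X cc n
  have h3 : (fun k => cc (k + 1)) = fun k => cc k - 2 * ((k : ℤ) * cc k) := by
    funext k
    simp only [cc]
    ring
  have h4 := BT_sub X cc (fun k => (k : ℤ) * cc k) (n + 1)
  have h5 := BT_mul X cc n
  unfold RR
  rw [h1]
  conv_lhs => rw [h3]
  rw [h4, h5]
  have h6 : BT X (fun k => cc (k + 1)) n = BT X cc (n + 1) - X * BT X cc n := by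
    rw [h2]
    ring
  rw [h6]
  ring

/-- even `X`: all values are odd -/
lemma RR_odd {X : ℤ} (hX : Even X) (n : ℕ) : Odd (RR X n) ∧ Odd (RR X (n + 1)) := by
  induction n with
  | zero =>
    rw [RR_zero, RR_one]
    exact ⟨odd_one, hX.add_one⟩
  | succ n ih =>
    refine ⟨ih.2, ?_⟩
    rw [RR_rec]
    obtain ⟨x, rfl⟩ := hX
    obtain ⟨y, hy⟩ := ih.2
    rw [hy]
    exact ⟨2 * (x - (n + 1)) * y + x - (n + 1) + y + (n + 1) * (x + x) * RR (x + x) n, by ring⟩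

/-- odd `X`: the exact 2-adic valuation for even index -/
lemma RR_val {X : ℤ} (hX : Odd X) (k : ℕ) :
    (∃ u, RR X (2 * k) = 2 ^ k * (2 * u + 1)) ∧ ∃ w, RR X (2 * k + 1) = 2 ^ (k + 1) * w := by
  obtain ⟨x, rfl⟩ := hX
  induction k with
  | zero =>
    refine ⟨⟨0, by rw [mul_zero, RR_zero]; norm_num⟩, ⟨x + 1, ?_⟩⟩
    rw [mul_zero, zero_add, RR_one]
    ring
  | succ k ih =>
    obtain ⟨⟨u, hu⟩, ⟨w, hw⟩⟩ := ih
    have h1 : RR (2 * x + 1) (2 * (k + 1)) = 2 ^ (k + 1) * (2 * ((x + 1 - (2 * k + 1)) * w +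
        (2 * (2 * k + 1) * x * u + (2 * k + 1) * x + (2 * k + 1) * u + k)) + 1) := by
      rw [show 2 * (k + 1) = 2 * k + 2 by ring, RR_rec, hu, hw]
      push_cast
      ring
    refine ⟨⟨_, h1⟩, ?_⟩
    rw [show 2 * (k + 1) + 1 = (2 * k + 1) + 2 by ring, RR_rec,
      show 2 * k + 1 + 1 = 2 * (k + 1) by ring, h1, hw]
    refine ⟨(x + 1 - (2 * k + 2)) * (2 * ((x + 1 - (2 * k + 1)) * w +
        (2 * (2 * k + 1) * x * u + (2 * k + 1) * x + (2 * k + 1) * u + k)) + 1) +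
        (2 * k + 2) * (2 * x + 1) * w, ?_⟩
    push_cast
    ring

theorem RR_even_ne {n : ℕ} (hn : Even n) (X : ℤ) : RR X n ≠ 0 := by
  intro h
  rcases Int.even_or_odd X with hX | hX
  · have h1 := (RR_odd hX n).1
    rw [h] at h1
    exact absurd h1 (by decide)
  · obtain ⟨k, hk⟩ := hn
    obtain ⟨⟨u, hu⟩, _⟩ := RR_val hX k
    rw [show 2 * k = n by omega, h] at hu
    have h2 : (2 : ℤ) ^ k ≠ 0 := by positivity
    have h3 : 2 * u + 1 = 0 := by
      rcases mul_eq_zero.1 hu.symm with h4 | h4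
      · exact absurd h4 h2
      · exact h4
    omega

end Pool.Agent.H36.EN
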